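import Pool.Agent.H57.CF.PTF
import Pool.Agent.H44.ND.RND
import Pool.Agent.H47.NM.ARM

/-!
# Stage F: the maps of the family near which (in the family) the number of attracted critical points increases

`UpF x`: arbitrarily near `x`, in the family, there are maps with more attracted critical points. As H44/ND/UPN, RND.
-/

set_option autoImplicit false

open Filter Topology Metric Set Polynomial

namespace Pool.Agent.H57.CF

open Pool.Agent.H44.Fatou Pool.Agent.H79.Eul Pool.Agent.H79.Par Pool.Agent.H47.NN Pool.Agent.H44.NP Pool.Agent.H44.ND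
open Pool.Agent.H47.NM Pool.Agent.H79.ES Pool.Agent.H32.BT Pool.Agent.H35.EX

variable {d k : ℕ}

def UpF (d k : ℕ) (x : Em d k) : Prop :=
  ∀ ε : ℝ, 0 < ε → ∃ w ∈ ball x ε, IsCoprime (pol w.1) (pol w.2) ∧
    max (pol w.1).natDegree (pol w.2).natDegree = d ∧ NA (ex d k x) + 1 ≤ NA (ex d k w)

theorem ex_cop {x : Em d k} (h : IsCoprime (pol x.1) (pol x.2)) :
    IsCoprime (pol (ex d k x).1) (pol (ex d k x).2) := by
  rw [(ex_pol x).1, (ex_pol x).2]
  exact h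

theorem ex_deg {x : Em d k} (h : max (pol x.1).natDegree (pol x.2).natDegree = d) :
    max (pol (ex d k x).1).natDegree (pol (ex d k x).2).natDegree = d := by
  rw [(ex_pol x).1, (ex_pol x).2]
  exact h

theorem ex_low (hd : 2 ≤ d) {x : Em d k} (h1 : IsCoprime (pol x.1) (pol x.2))
    (h2 : max (pol x.1).natDegree (pol x.2).natDegree = d) :
    ∀ᶠ w in 𝓝 x, NA (ex d k x) ≤ NA (ex d k w) :=
  (ex_cont d k).continuousAt.eventually (na_low hd (ex_cop h1) (ex_deg h2))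

theorem ex_near (hd : 2 ≤ d) {x : Em d k} (h1 : IsCoprime (pol x.1) (pol x.2))
    (h2 : max (pol x.1).natDegree (pol x.2).natDegree = d) :
    ∀ᶠ w in 𝓝 x, IsCoprime (pol w.1) (pol w.2) ∧ max (pol w.1).natDegree (pol w.2).natDegree = d := by
  have h3 := (ex_cont d k).continuousAt.eventually (cop_near (ex_cop h1) (ex_deg h2) (by omega))
  filter_upwards [h3] with w hw
  rw [(ex_pol w).1, (ex_pol w).2] at hw
  exact hw

theorem upF_nwd (hd : 2 ≤ d) : IsNowhereDense {v : Em d k | IsCoprime (pol v.1) (pol v.2) ∧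
    max (pol v.1).natDegree (pol v.2).natDegree = d ∧ UpF d k v} := by
  obtain ⟨S, hS⟩ : ∃ S : Set (Em d k), S = {v : Em d k | IsCoprime (pol v.1) (pol v.2) ∧
    max (pol v.1).natDegree (pol v.2).natDegree = d ∧ UpF d k v} := ⟨_, rfl⟩
  rw [← hS]
  unfold IsNowhereDense
  by_contra hne
  have hne' : (interior (closure S)).Nonempty := Set.nonempty_iff_ne_empty.2 hne
  obtain ⟨U, hU⟩ : ∃ U, U = interior (closure S) := ⟨_, rfl⟩
  rw [← hU] at hne'
  have hUo : IsOpen U := by rw [hU]; exact isOpen_interior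
  have hUS : U ⊆ closure S := by rw [hU]; exact interior_subset
  have hmeet : ∀ V : Set (Em d k), IsOpen V → (V ∩ U).Nonempty → (V ∩ U ∩ S).Nonempty := by
    rintro V hV ⟨v, hv⟩
    exact mem_closure_iff.1 (hUS hv.2) _ (hV.inter hUo) hv
  have key : ∀ n : ℕ, ∃ v ∈ U, (IsCoprime (pol v.1) (pol v.2) ∧
      max (pol v.1).natDegree (pol v.2).natDegree = d) ∧ n ≤ NA (ex d k v) := by
    intro n
    induction n with
    | zero =>
      obtain ⟨v, hv⟩ := hne'
      obtain ⟨v1, hv1, hv2⟩ := hmeet Set.univ isOpen_univ ⟨v, Set.mem_univ _, hv⟩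
      rw [hS] at hv2
      exact ⟨v1, hv1.2, ⟨hv2.1, hv2.2.1⟩, Nat.zero_le _⟩
    | succ n ih =>
      obtain ⟨v0, hv0, ⟨hcop, hdeg⟩, hn⟩ := ih
      obtain ⟨V, hV, hVo, hvV⟩ := _root_.eventually_nhds_iff.1 (ex_low hd hcop hdeg)
      obtain ⟨v1, ⟨hv1, hv1U⟩, hv1S⟩ := hmeet V hVo ⟨v0, hvV, hv0⟩
      have h1 := hV v1 hv1
      rw [hS] at hv1S
      obtain ⟨hc1, hd1, hup⟩ := hv1S
      obtain ⟨ε, hε, hεU⟩ := Metric.isOpen_iff.1 hUo v1 hv1U
      obtain ⟨v2, h2, h3, h4, h5⟩ := hup ε hε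
      exact ⟨v2, hεU h2, ⟨h3, h4⟩, by omega⟩
  obtain ⟨v, -, ⟨h1, h2⟩, h3⟩ := key (2 * d + 1)
  have h4 := na_le hd (ex_cop h1) (ex_deg h2)
  omega

theorem genM_deg {x : Em d k} (h : GenM d k (pol x.1) (pol x.2)) :
    max (pol x.1).natDegree (pol x.2).natDegree = d := by
  rw [h.ha, h.hb]
  omega

theorem ex_norm (x y : Em d k) : ‖ex d k x - ex d k y‖ ≤ ‖x - y‖ := by
  rw [Prod.norm_def, Prod.norm_def (x - y)]
  refine max_le_max le_rfl ?_
  rw [pi_norm_le_iff_of_nonneg (norm_nonneg _)]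
  intro i
  show ‖(ex d k x).2 i - (ex d k y).2 i‖ ≤ _
  unfold ex
  by_cases h : (i : ℕ) < d - k + 1
  · simp only [h, dite_true]
    exact norm_le_pi_norm (x - y).2 ⟨i, h⟩
  · simp only [h, dite_false, sub_zero, norm_zero]
    exact norm_nonneg _

theorem upf_le (z w : ℂ) : chord (z : OnePoint ℂ) (w : OnePoint ℂ) ≤ ‖z - w‖ := by
  have h1 : chord (z : OnePoint ℂ) (w : OnePoint ℂ) =
      ‖z - w‖ / (√(1 + ‖z‖ ^ 2) * √(1 + ‖w‖ ^ 2)) := rfl
  rw [h1]
  have h2 : ∀ u : ℂ, 1 ≤ √(1 + ‖u‖ ^ 2) := fun u => by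
    rw [Real.one_le_sqrt]
    nlinarith [sq_nonneg ‖u‖]
  refine div_le_self (norm_nonneg _) ?_
  have := h2 z
  have := h2 w
  nlinarith

/-- a neutral cycle of a generic map of the family -/
theorem neu_upF (hd : 2 ≤ d) (hk : 2 ≤ k) (hkd : k ≤ d) {v : Em d k} (h : GenM d k (pol v.1) (pol v.2))
    {p : ℕ} (hp : 0 < p) {x : ℕ → ℂ} {m : ℂ} (hc : Cyc (pol v.1) (pol v.2) p x m) (hm : ‖m‖ = 1) :
    UpF d k v := by
  intro ε hε
  have hdeg := genM_deg h
  have hc' := hc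
  rw [← (ex_pol v).1, ← (ex_pol v).2] at hc'
  have hna := neu_na hd (ex_cop h.cop) (ex_deg hdeg) hp hc' hm
  obtain ⟨ε1, hε1, h1⟩ := na_jump hd (ex_cop h.cop) (ex_deg hdeg) hna
  obtain ⟨w, hw, hwG, y, m', hyc, hyx, hm'⟩ := ptbF hd hk hkd h hp hc hm (lt_min hε hε1)
  refine ⟨w, ball_subset_ball (min_le_left _ _) hw, hwG.cop, genM_deg hwG, ?_⟩
  rw [← (ex_pol w).1, ← (ex_pol w).2] at hyc
  refine h1 (ex d k w) ?_ (ex_cop hwG.cop) (ex_deg (genM_deg hwG)) (y 0) p ?_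
    (cyc_sink (ex_cop hwG.cop) hp hyc hm')
  · rw [mem_ball, dist_eq_norm] at hw ⊢
    exact (ex_norm _ _).trans_lt (hw.trans_le (min_le_right _ _))
  · refine lt_of_le_of_lt (upf_le _ _) ?_
    rw [norm_sub_rev]
    exact hyx.trans_le (min_le_right _ _)

end Pool.Agent.H57.CF
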