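import Pool.Agent.H57.CF.UPF
import Pool.Agent.H44.CP.MVL

/-!
# Stage F: bounded velocities of the repelling cycles in the directions of the family

As `vel` (H44/CP/MVL), with `neu_upF` in place of `neu_up`.
-/

set_option autoImplicit false

open Filter Topology Metric Set Polynomial

namespace Pool.Agent.H57.CF

open Pool.Agent.H44.Fatou (rat ev wv)
open Pool.Agent.H79.Eul Pool.Agent.H79.Par Pool.Agent.H47.NN Pool.Agent.H44.NP Pool.Agent.H44.ND
open Pool.Agent.H47.NM Pool.Agent.H79.ES Pool.Agent.H32.BT Pool.Agent.H35.EX Pool.Agent.H44.CP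

variable {d k : ℕ}

theorem genM_iff (hkd : k ≤ d) {x : Em d k} : GenM d k (pol x.1) (pol x.2) ↔
    IsCoprime (pol x.1) (pol x.2) ∧ x.1 (Fin.last d) ≠ 0 ∧ x.2 (Fin.last (d - k)) ≠ 0 ∧ x.1 0 ≠ 0 ∧ x.2 0 ≠ 0 := by
  have e0 : ∀ (n : ℕ) (v : Fin (n + 1) → ℂ), (pol v).eval 0 = v 0 := by
    intro n v
    rw [← coeff_zero_eq_eval_zero]
    exact pol_coeff v 0
  have e1 : ∀ (n : ℕ) (v : Fin (n + 1) → ℂ), (pol v).coeff n = v (Fin.last n) := by
    intro n v
    exact pol_coeff v (Fin.last n)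
  have e2 : ∀ (n : ℕ) (v : Fin (n + 1) → ℂ), v 0 ≠ 0 → ((pol v).natDegree = n ↔ v (Fin.last n) ≠ 0) := by
    intro n v h0
    constructor
    · intro hn
      rw [← e1 n v]
      have h1 : pol v ≠ 0 := by
        intro h2
        apply h0
        rw [← e0 n v, h2, eval_zero]
      have h3 := leadingCoeff_ne_zero.2 h1
      unfold leadingCoeff at h3
      rwa [hn] at h3
    · intro hn
      exact natDegree_eq_of_le_of_coeff_ne_zero (pol_deg v) (by rw [e1 n v]; exact hn)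
  constructor
  · rintro ⟨h1, h2, h3, h4, h5⟩
    rw [e0] at h4 h5
    exact ⟨h1, (e2 _ _ h4).1 h2, (e2 _ _ h5).1 h3, h4, h5⟩
  · rintro ⟨h1, h2, h3, h4, h5⟩
    exact ⟨h1, (e2 _ _ h4).2 h2, (e2 _ _ h5).2 h3, by rwa [e0], by rwa [e0]⟩

theorem genM_near (hd : 2 ≤ d) (hkd : k ≤ d) {x : Em d k} (h : GenM d k (pol x.1) (pol x.2)) :
    ∀ᶠ w in 𝓝 x, GenM d k (pol w.1) (pol w.2) := by
  obtain ⟨h1, h2, h3, h4, h5⟩ := (genM_iff hkd).1 h
  have c1 : ∀ i, Continuous fun w : Em d k => w.1 i := fun i => by fun_prop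
  have c2 : ∀ i, Continuous fun w : Em d k => w.2 i := fun i => by fun_prop
  filter_upwards [ex_near hd h1 (genM_deg h), (c1 (Fin.last d)).continuousAt.eventually_ne h2,
    (c2 (Fin.last (d - k))).continuousAt.eventually_ne h3, (c1 0).continuousAt.eventually_ne h4,
    (c2 0).continuousAt.eventually_ne h5] with w w1 w2 w3 w4 w5
  exact (genM_iff hkd).2 ⟨w1.1, w2, w3, w4, w5⟩

theorem velF (hd : 2 ≤ d) (hk : 2 ≤ k) (hkd : k ≤ d) {x0 : Em d k} (hg : GenM d k (pol x0.1) (pol x0.2))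
    (hup : ¬ UpF d k x0) :
    (∀ p : ℕ, 0 < p → ∀ x m, Cyc (pol x0.1) (pol x0.2) p x m → ‖m‖ ≠ 1) ∧
      ∀ w : Em d k, ∃ C : ℝ, 0 < C ∧ ∀ (p : ℕ) (x : ℕ → ℂ) (m : ℂ), 0 < p →
        Cyc (pol (ex d k x0).1) (pol (ex d k x0).2) p x m → 1 < ‖m‖ →
        ∃ u : ℕ → ℂ, (∀ i, i ≤ p → ‖u i‖ ≤ C) ∧ u p = u 0 ∧
          ∀ i, i < p → u (i + 1) = wv (ex d k x0) (x i) / ev (ex d k x0).2 (x i) ^ 2 * u i +
            xi (ex d k x0) (ex d k w) (x i) := by
  have hcop := hg.cop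
  have hdeg := genM_deg hg
  have hinf : Att (Rf (ex d k x0)) OnePoint.infty := by
    obtain ⟨h1, h2, -⟩ := inf_sink (fam_ex hk hkd hg) one_pos
    exact ⟨OnePoint.infty, 1, h2, by
      have h3 : ∀ j : ℕ, (Rf (ex d k x0))^[1 * j] OnePoint.infty = OnePoint.infty := by
        intro j
        rw [one_mul]
        exact Function.iterate_fixed h1 j
      simp only [h3]
      exact tendsto_const_nhds⟩
  -- a ball without neutral cycles
  obtain ⟨ε0, hε0, hno⟩ : ∃ ε : ℝ, 0 < ε ∧ ∀ w ∈ ball x0 ε, IsCoprime (pol w.1) (pol w.2) →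
      max (pol w.1).natDegree (pol w.2).natDegree = d → NA (ex d k w) ≤ NA (ex d k x0) := by
    unfold UpF at hup
    push Not at hup
    obtain ⟨ε, hε, h⟩ := hup
    exact ⟨ε, hε, fun w hw h1 h2 => Nat.lt_succ_iff.1 (h w hw h1 h2)⟩
  obtain ⟨W, hW, hWv⟩ := att_pers hd (ex_cop hcop) (ex_deg hdeg) hinf
  have hev : ∀ᶠ v in 𝓝 x0, (∀ z ∈ W, Att (Rf (ex d k v)) z) ∧ GenM d k (pol v.1) (pol v.2) ∧
      NA (ex d k x0) ≤ NA (ex d k v) :=
    ((ex_cont d k).continuousAt.eventually hWv).and ((genM_near hd hkd hg).and (ex_low hd hcop hdeg))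
  obtain ⟨ε1, hε1, hall⟩ := Metric.eventually_nhds_iff_ball.1 hev
  obtain ⟨ε, hεd⟩ : ∃ ε, ε = min ε0 ε1 := ⟨_, rfl⟩
  have hε : 0 < ε := by rw [hεd]; exact lt_min hε0 hε1
  have hno' : ∀ v ∈ ball x0 ε, ¬ UpF d k v := by
    intro v hv hu
    rw [hεd] at hv
    have hv1 := hall v (ball_subset_ball (min_le_right _ _) hv)
    obtain ⟨δ, hδ, hδb⟩ := Metric.isOpen_iff.1 isOpen_ball v (ball_subset_ball (min_le_left _ _) hv)
    obtain ⟨w, hw, h1, h2, h3⟩ := hu δ hδ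
    have h4 := hno w (hδb hw) h1 h2
    have h5 := hv1.2.2
    omega
  have hvn : ∀ v ∈ ball x0 ε, ∀ p : ℕ, 0 < p → ∀ x m,
      Cyc (pol (ex d k v).1) (pol (ex d k v).2) p x m → ‖m‖ ≠ 1 := by
    intro v hv p hp x m hc hm
    have hv1 := hall v (ball_subset_ball (by rw [hεd]; exact min_le_right _ _) hv)
    rw [(ex_pol v).1, (ex_pol v).2] at hc
    exact hno' v hv (neu_upF hd hk hkd hv1.2.1 hp hc hm)
  -- the bound
  obtain ⟨R, hRp, hRW⟩ : ∃ R : ℝ, 0 < R ∧ ∀ z : ℂ, R < ‖z‖ → (z : OnePoint ℂ) ∈ W := by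
    have h1 : Tendsto (fun z : ℂ => (z : OnePoint ℂ)) (Filter.cocompact ℂ) (𝓝 OnePoint.infty) := by
      rw [← Filter.coclosedCompact_eq_cocompact]
      exact OnePoint.tendsto_coe_infty
    have h2 : ∀ᶠ z : ℂ in Filter.cocompact ℂ, (z : OnePoint ℂ) ∈ W := h1.eventually hW
    rw [← Metric.cobounded_eq_cocompact,
      (Metric.hasBasis_cobounded_compl_closedBall (0 : ℂ)).eventually_iff] at h2
    obtain ⟨R0, -, hR0⟩ := h2
    refine ⟨max R0 1, lt_of_lt_of_le one_pos (le_max_right _ _), fun z hz => hR0 ?_⟩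
    intro h3
    exact (mem_closedBall_zero_iff.1 h3).not_gt ((le_max_left _ _).trans_lt hz)
  have hbd : ∀ v ∈ ball x0 ε, ∀ p : ℕ, 0 < p → ∀ x m,
      Cyc (pol (ex d k v).1) (pol (ex d k v).2) p x m → 1 ≤ ‖m‖ → ∀ i, i ≤ p → ‖x i‖ ≤ R := by
    intro v hv p hp x m hc hm i hi
    have hv1 := hall v (ball_subset_ball (by rw [hεd]; exact min_le_right _ _) hv)
    by_contra hlt
    exact big_na_all hd (ex_cop hv1.2.1.cop) (ex_deg (genM_deg hv1.2.1)) hp hc hm hi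
      (hv1.1 _ (hRW _ (not_le.1 hlt)))
  refine ⟨fun p hp x m hc => hvn x0 (mem_ball_self hε) p hp x m (by
    rw [(ex_pol x0).1, (ex_pol x0).2]; exact hc), fun w => ?_⟩
  obtain ⟨r, hrd⟩ : ∃ r, r = ε / (2 * (‖w‖ + 1)) := ⟨_, rfl⟩
  have hw0 : 0 < ‖w‖ + 1 := by positivity
  have hr : 0 < r := by rw [hrd]; positivity
  have hvb : ∀ t : ℂ, ‖t‖ ≤ r → x0 + t • w ∈ ball x0 ε := by
    intro t ht
    rw [mem_ball_iff_norm, add_sub_cancel_left, norm_smul]
    rw [hrd, le_div_iff₀ (by positivity)] at ht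
    have h1 := norm_nonneg t
    have h2 := norm_nonneg w
    nlinarith
  have hlin : ∀ t : ℂ, ex d k x0 + t • ex d k w = ex d k (x0 + t • w) := by
    intro t
    refine Prod.ext rfl (funext fun i => ?_)
    show (ex d k x0).2 i + t • (ex d k w).2 i = (ex d k (x0 + t • w)).2 i
    unfold ex
    by_cases h : (i : ℕ) < d - k + 1
    · simp only [h, dite_true]
      rfl
    · simp only [h, dite_false, smul_zero, add_zero]
  refine ⟨2 * R / r, by positivity, fun p x m hp hc hm => ?_⟩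
  exact vel_line hr
    (fun t ht => by
      rw [hlin]
      exact ex_cop (hall _ (ball_subset_ball (by rw [hεd]; exact min_le_right _ _) (hvb t ht))).2.1.cop)
    (fun t ht x m hc => by
      rw [hlin] at hc
      exact hvn _ (hvb t ht) p hp x m hc)
    (fun t ht x m hc hm => by
      rw [hlin] at hc
      exact hbd _ (hvb t ht) p hp x m hc hm) hc hm

end Pool.Agent.H57.CF
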