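import Pool.Agent.H57.CF.TRF

/-!
# Stage F: the dichotomy for every map of the families
-/

set_option autoImplicit false

open MeasureTheory Metric Set Polynomial Filter Topology

namespace Pool.Agent.H57.CF

open Pool.Agent.H44.Fatou (rat ev wv rat_continuous rat_coe_of_ne)
open Pool.Agent.H32.BT Pool.Agent.H80.AJ Pool.Agent.H61.TT Pool.Agent.H35.EX Pool.Agent.H79.Eul Pool.Agent.H79.Par
open Pool.Agent.H44.RC Pool.Agent.H44.CP Pool.Agent.H44.ND Pool.Agent.H79.ES Pool.Agent.H84.BR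
open Pool.Agent.H44.RG Pool.Agent.H57.CP Pool.Agent.H47.NM Pool.Agent.H47.NN Pool.Agent.H47.RJ

variable {d k : ℕ}

/-- a map of the family is after an inclusion and a translation generic -/
theorem red_gen (hd : 2 ≤ d) (hk : 2 ≤ k) (hkd : k ≤ d) {x : Em d k} (hcop : IsCoprime (pol x.1) (pol x.2))
    (hdeg : max (pol x.1).natDegree (pol x.2).natDegree = d) :
    ∃ (l : ℕ) (z : Em d l) (φ : OnePoint ℂ ≃ₜ OnePoint ℂ) (K : ℝ), 2 ≤ l ∧ l ≤ d ∧ GenM d l (pol z.1) (pol z.2) ∧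
      (∀ x y, chord (φ x) (φ y) ≤ K * chord x y ∧ chord x y ≤ K * chord (φ x) (φ y)) ∧
      (∀ y, Rf (ex d l z) (φ y) = φ (Rf (ex d k x) y)) ∧ (UpF d l z → UpF d k x) := by
  obtain ⟨l, y, hkl, hld, hn, rfl⟩ := em_sur hkd x
  have hl2 : 2 ≤ l := by omega
  rw [em_pol hkl y] at hcop hdeg hn
  have hcop' : IsCoprime (pol y.1) (pol y.2) := hcop
  have hdeg' : max (pol y.1).natDegree (pol y.2).natDegree = d := hdeg
  have ha := fam_a hl2 hld hdeg'
  have hQ0 : pol y.2 ≠ 0 := den_ne_zero hcop' (by rw [hdeg']; omega)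
  have hR0 : pol y.1 - X * pol y.2 ≠ 0 := by
    intro h
    have h1 := sub_eq_zero.1 h
    have h2 : (X * pol y.2).natDegree ≤ d - l + 1 := by
      refine natDegree_mul_le.trans ?_
      rw [natDegree_X]
      have := pol_deg y.2
      omega
    rw [← h1, ha] at h2
    omega
  obtain ⟨s, hs⟩ : ∃ s : ℂ, (pol y.2 * (pol y.1 - X * pol y.2)).eval s ≠ 0 := by
    by_contra hno
    push Not at hno
    exact mul_ne_zero hQ0 hR0 (Polynomial.funext fun r => by rw [hno r, eval_zero])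
  rw [eval_mul, eval_sub, eval_mul, eval_X] at hs
  have hs2 := left_ne_zero_of_mul hs
  have hs1 := right_ne_zero_of_mul hs
  have hg : GenM d l (pol (Tr d l s y).1) (pol (Tr d l s y).2) := by
    refine ⟨tr_cop hcop', tr_dega hl2 hld hdeg', by rw [tr_degb, hn], ?_, ?_⟩
    · rw [pol_tr1, eval_sub, eval_mul, eval_C, eval_comp, eval_comp, eval_add, eval_X, eval_C, zero_add]
      exact hs1
    · rw [pol_tr2, eval_comp, eval_add, eval_X, eval_C, zero_add]
      exact hs2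
  obtain ⟨φ, h1, -, K, hK⟩ := tr_homeo s
  refine ⟨l, Tr d l s y, φ, K, hl2, hld, hg, hK, ?_, ?_⟩
  · rw [em_ex hkl]
    exact tr_conj hd hcop' hdeg' h1 hl2 hld
  · intro h
    exact em_up hkl (tr_up hd hl2 hld s hcop' hdeg' h)

/-- the dichotomy at the generic maps -/
theorem concF_gen (hd : 2 ≤ d) (hk : 2 ≤ k) (hkd : k ≤ d) {x : Em d k} (hg : GenM d k (pol x.1) (pol x.2)) :
    ConcP (Rf (ex d k x)) ∨ UpF d k x := by
  by_cases hup : UpF d k x
  · exact Or.inr hup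
  · left
    obtain ⟨hAR, hPC⟩ := P1F hd hk hkd hg hup
    have hcop' := ex_cop hg.cop
    have hdeg' := ex_deg (genM_deg hg)
    have hpart := fun c hc hcJ => to_rec hd hcop' hdeg' hAR hPC (c := c) hc hcJ
    refine ⟨hpart, ?_⟩
    by_cases hJ : ∃ c, IsCrit (Rf (ex d k x)) c ∧ c ∈ JS (Rf (ex d k x))
    · obtain ⟨c, hc, hcJ⟩ := hJ
      obtain ⟨r, hr1, hr2, hr3, -⟩ := hpart c hc hcJ
      exact Or.inr ⟨r, hr1, hr2, hr3⟩
    · push Not at hJ
      exact Or.inl (hyp_ar hd hcop' hdeg' hAR hJ)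

/-- the dichotomy for every map of the family -/
theorem concF_all (hd : 2 ≤ d) (hk : 2 ≤ k) (hkd : k ≤ d) {x : Em d k} (hcop : IsCoprime (pol x.1) (pol x.2))
    (hdeg : max (pol x.1).natDegree (pol x.2).natDegree = d) : ConcP (Rf (ex d k x)) ∨ UpF d k x := by
  obtain ⟨l, z, φ, K, hl, hld, hg, hK, hφ, hup⟩ := red_gen hd hk hkd hcop hdeg
  rcases concF_gen hd hl hld hg with h | h
  · exact Or.inl (concp_conj hK hφ h)
  · exact Or.inr (hup h)

end Pool.Agent.H57.CF
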