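import Pool.Agent.H57.CP.CHT

/-!
# Stage F: the standing assumptions in the plane (no change of chart)

As CHT (H57/CP), for a trap `T` which is a neighbourhood of infinity.
-/

set_option autoImplicit false

open MeasureTheory Metric Set Polynomial Filter Topology

namespace Pool.Agent.H57.CF

open Pool.Agent.H44.Fatou (rat rat_continuous crit_coe)
open Pool.Agent.H32.BT Pool.Agent.H80.AJ Pool.Agent.H61.TT Pool.Agent.H35.EX Pool.Agent.H79.Eul Pool.Agent.H79.Par
open Pool.Agent.H44.RC Pool.Agent.H44.CP Pool.Agent.H44.ND Pool.Agent.H79.ES Pool.Agent.H84.BR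
open Pool.Agent.H44.RG Pool.Agent.H57.CP

theorem cs_of {d : ℕ} (hd : 2 ≤ d) {v0 : E d} (hcop : IsCoprime (pol v0.1) (pol v0.2))
    (hdeg : max (pol v0.1).natDegree (pol v0.2).natDegree = d) {T : Set (OnePoint ℂ)} (htrap : Trap (Rf v0) T)
    (hTinf : OnePoint.infty ∈ interior T) {c1 : ℂ} (hc : IsCrit (Rf v0) (c1 : OnePoint ℂ))
    (hJ1 : (c1 : OnePoint ℂ) ∈ JS (Rf v0)) (hna : (c1 : OnePoint ℂ) ∉ T) (hP : (c1 : OnePoint ℂ) ∉ PC (Rf v0)) :
    ∃ (ρ R0 : ℝ) (A : Set (OnePoint ℂ)) (W : Set ℂ), CS d (pol v0.1) (pol v0.2) c1 ρ R0 A W := by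
  obtain ⟨g, hg⟩ : ∃ g, g = Rf v0 := ⟨_, rfl⟩
  have hgr : g = rat (pol v0.1) (pol v0.2) := hg
  have hgc : Continuous g := by rw [hgr]; exact rat_continuous hcop
  rw [← hg] at htrap
  have hTn : T ∈ 𝓝 OnePoint.infty := mem_interior_iff_mem_nhds.1 hTinf
  have hTit : ∀ (n : ℕ) (x : OnePoint ℂ), x ∈ T → g^[n] x ∈ T := by
    intro n
    induction n with
    | zero => exact fun x hx => hx
    | succ n ih =>
      intro x hx
      rw [Function.iterate_succ_apply]
      exact ih _ (interior_subset (htrap.maps x hx))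
  obtain ⟨A, hA⟩ : ∃ A, A = PC (Rf v0) ∪ T := ⟨_, rfl⟩
  have hPCc : IsClosed (PC (Rf v0)) := isClosed_closure
  have hAc : IsClosed A := by
    rw [hA]
    exact hPCc.union htrap.closed
  have hPCinv : ∀ x ∈ PC (Rf v0), Rf v0 x ∈ PC (Rf v0) := by
    intro x hx
    have h1 : Rf v0 '' PC (Rf v0) ⊆ PC (Rf v0) := by
      unfold PC
      refine (image_closure_subset_closure_image (rat_continuous hcop)).trans (closure_mono ?_)
      rintro _ ⟨y, ⟨c', hc', n, hn, hy⟩, rfl⟩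
      refine ⟨c', hc', n + 1, by omega, ?_⟩
      rw [Function.iterate_succ_apply', hy]
      rfl
    exact h1 ⟨x, hx, rfl⟩
  have hAinv : ∀ x ∈ A, g x ∈ A := by
    intro x hx
    rw [hA] at hx ⊢
    rcases hx with hy | hx
    · left
      rw [hg]
      exact hPCinv x hy
    · exact Or.inr (interior_subset (htrap.maps x hx))
  have hAcr : ∀ c', IsCrit g c' → g c' ∈ A := by
    intro c' hc'
    rw [hg] at hc' ⊢
    rw [hA]
    left
    refine subset_closure ⟨c', hc', 1, le_rfl, ?_⟩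
    rw [Function.iterate_one]
  have hcT : (c1 : OnePoint ℂ) ∉ A := by
    rw [hA]
    rintro (h | h)
    · exact hP h
    · exact hna h
  obtain ⟨ρ, hρ, hρA⟩ : ∃ ρ : ℝ, 0 < ρ ∧ ∀ w ∈ ball c1 ρ, (w : OnePoint ℂ) ∉ A := by
    have h1 : (fun w : ℂ => (w : OnePoint ℂ)) ⁻¹' Aᶜ ∈ 𝓝 c1 :=
      OnePoint.continuous_coe.continuousAt.preimage_mem_nhds (hAc.isOpen_compl.mem_nhds hcT)
    obtain ⟨ρ, hρ, h2⟩ := Metric.mem_nhds_iff.1 h1
    exact ⟨ρ, hρ, fun w hw => h2 hw⟩
  have hTA : T ⊆ A := by rw [hA]; exact subset_union_right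
  -- the radius
  obtain ⟨R, hR⟩ : ∃ R : ℝ, ∀ z : ℂ, R < ‖z‖ → (z : OnePoint ℂ) ∈ T := by
    have h1 : Tendsto (fun z : ℂ => (z : OnePoint ℂ)) (Filter.cocompact ℂ) (𝓝 OnePoint.infty) := by
      rw [← Filter.coclosedCompact_eq_cocompact]
      exact OnePoint.tendsto_coe_infty
    have h2 : ∀ᶠ z : ℂ in Filter.cocompact ℂ, (z : OnePoint ℂ) ∈ T := h1.eventually hTn
    rw [← Metric.cobounded_eq_cocompact,
      (Metric.hasBasis_cobounded_compl_closedBall (0 : ℂ)).eventually_iff] at h2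
    obtain ⟨R, -, hR⟩ := h2
    refine ⟨R, fun z hz => hR ?_⟩
    intro h3
    exact (mem_closedBall_zero_iff.1 h3).not_gt hz
  -- a point near `c1` which is mapped to the trap
  obtain ⟨z1, hz1, j, hj⟩ : ∃ z1 ∈ ball c1 (ρ / 64), ∃ j : ℕ, g^[j] (z1 : OnePoint ℂ) ∈ T := by
    have hfin := Pool.Agent.H47.RJ.exc_fin hd hcop hdeg
      (B := (fun w : ℂ => (w : OnePoint ℂ)) '' ball c1 (ρ / 64))
      (OnePoint.isOpenEmbedding_coe.isOpenMap _ isOpen_ball)
      ⟨(c1 : OnePoint ℂ), ⟨c1, mem_ball_self (by positivity), rfl⟩, hJ1⟩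
    have hinf : T.Infinite := by
      have h1 : ((fun w : ℂ => (w : OnePoint ℂ)) '' (closedBall (0 : ℂ) R)ᶜ).Infinite := by
        refine Set.Infinite.image (OnePoint.coe_injective.injOn) ?_
        intro hf
        have h2 : (closedBall (0 : ℂ) R).Infinite ∨ True := Or.inr trivial
        have h3 : IsCompact ((closedBall (0 : ℂ) R)ᶜ) := hf.isCompact
        have h4 : IsCompact (univ : Set ℂ) := by
          rw [← union_compl_self (closedBall (0 : ℂ) R)]
          exact (isCompact_closedBall _ _).union h3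
        exact noncompact_univ ℂ h4
      refine h1.mono ?_
      rintro _ ⟨w, hw, rfl⟩
      apply hR
      by_contra hle
      exact hw (mem_closedBall_zero_iff.2 (not_lt.1 hle))
    obtain ⟨t, htT, ht⟩ := (hinf.sdiff hfin).nonempty
    rw [Set.mem_ofPred_eq] at ht
    push Not at ht
    obtain ⟨j, y, ⟨z1, hz1, rfl⟩, hy⟩ := ht
    refine ⟨z1, hz1, j, ?_⟩
    rw [hg]
    change (Rf v0)^[j] (z1 : OnePoint ℂ) = t at hy
    rw [hy]
    exact htT
  have hz1T : (z1 : OnePoint ℂ) ∉ T := fun h =>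
    hρA z1 (ball_subset_ball (by linarith) hz1) (hTA h)
  have hm : g^[j + 1] (z1 : OnePoint ℂ) ∈ interior T := by
    rw [Function.iterate_succ_apply']
    exact htrap.maps _ hj
  have hnper : ∀ n : ℕ, 1 ≤ n → g^[n] (z1 : OnePoint ℂ) ≠ (z1 : OnePoint ℂ) := by
    intro n hn h
    have h1 : ∀ k : ℕ, g^[n * k] (z1 : OnePoint ℂ) = (z1 : OnePoint ℂ) := by
      intro k
      rw [Function.iterate_mul]
      exact Function.iterate_fixed h k
    have h2 : g^[n * (j + 1)] (z1 : OnePoint ℂ) ∈ T := by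
      have h3 : n * (j + 1) = (n * (j + 1) - (j + 1)) + (j + 1) := by
        have : j + 1 ≤ n * (j + 1) := Nat.le_mul_of_pos_left _ hn
        omega
      rw [h3, Function.iterate_add_apply]
      exact hTit _ _ (interior_subset hm)
    rw [h1] at h2
    exact hz1T h2
  obtain ⟨η, hη, hWs, hWm, hWn⟩ : ∃ η : ℝ, 0 < η ∧ ball z1 η ⊆ ball c1 (ρ / 64) ∧
      (∀ w ∈ ball z1 η, g^[j + 1] (w : OnePoint ℂ) ∈ interior T) ∧
      ∀ n ∈ Finset.range (j + 1), 1 ≤ n → ∀ w ∈ ball z1 η, ∀ w' ∈ ball z1 η,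
        g^[n] (w : OnePoint ℂ) ≠ (w' : OnePoint ℂ) := by
    have hco : ∀ n : ℕ, ContinuousAt (fun w : ℂ => g^[n] (w : OnePoint ℂ)) z1 := fun n =>
      ((hgc.iterate n).comp OnePoint.continuous_coe).continuousAt
    have h1 : ∀ᶠ w : ℂ in 𝓝 z1, w ∈ ball c1 (ρ / 64) := isOpen_ball.mem_nhds hz1
    have h2 : ∀ᶠ w : ℂ in 𝓝 z1, g^[j + 1] (w : OnePoint ℂ) ∈ interior T :=
      (hco (j + 1)).eventually (isOpen_interior.mem_nhds hm)
    have h3 : ∀ n ∈ Finset.range (j + 1), ∃ U V : Set (OnePoint ℂ), 1 ≤ n →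
        U ∈ 𝓝 (g^[n] (z1 : OnePoint ℂ)) ∧ V ∈ 𝓝 (z1 : OnePoint ℂ) ∧ Disjoint U V := by
      intro n _
      by_cases hn : 1 ≤ n
      · obtain ⟨U, V, hU, hV, hd⟩ := t2_separation_nhds (hnper n hn)
        exact ⟨U, V, fun _ => ⟨hU, hV, hd⟩⟩
      · exact ⟨univ, univ, fun h => absurd h hn⟩
    choose! U V hUV using h3
    have h4 : ∀ᶠ w : ℂ in 𝓝 z1, ∀ n ∈ Finset.range (j + 1), 1 ≤ n →
        g^[n] (w : OnePoint ℂ) ∈ U n ∧ (w : OnePoint ℂ) ∈ V n := by
      rw [Filter.eventually_all_finset]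
      intro n hn
      by_cases hn1 : 1 ≤ n
      · obtain ⟨h5, h6, -⟩ := hUV n hn hn1
        have h7 : ∀ᶠ w : ℂ in 𝓝 z1, g^[n] (w : OnePoint ℂ) ∈ U n := (hco n).eventually h5
        have h8 : ∀ᶠ w : ℂ in 𝓝 z1, (w : OnePoint ℂ) ∈ V n :=
          OnePoint.continuous_coe.continuousAt.eventually h6
        filter_upwards [h7, h8] with w h9 h10 _
        exact ⟨h9, h10⟩
      · exact Filter.Eventually.of_forall fun w h => absurd h hn1
    obtain ⟨η, hη, h5⟩ := Metric.eventually_nhds_iff_ball.1 (h1.and (h2.and h4))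
    refine ⟨η, hη, fun w hw => (h5 w hw).1, fun w hw => (h5 w hw).2.1, ?_⟩
    intro n hn hn1 w hw w' hw' he
    have h6 := ((h5 w hw).2.2 n hn hn1).1
    have h7 := ((h5 w' hw').2.2 n hn hn1).2
    rw [he] at h6
    exact Set.disjoint_left.1 (hUV n hn hn1).2.2 h6 h7
  refine ⟨ρ, R, A, ball z1 η, ?_⟩
  refine
    { rt := ⟨hd, hcop, hdeg⟩
      sys := ⟨hcop, by rw [hdeg]; omega, hAc, by rw [← hgr]; exact hAinv,
        by rw [← hgr]; exact hAcr, hTA (interior_subset hTinf), ?_⟩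
      cr := ?_
      hρ := hρ
      off := hρA
      bd := ?_
      Wm := measurableSet_ball
      Ws := hWs
      Wv := (measure_ball_pos volume z1 hη).ne'
      Wd := ?_ }
  · obtain ⟨a, ha⟩ : ∃ a : ℂ, (a : OnePoint ℂ) ∈ interior T :=
      OnePoint.denseRange_coe.exists_mem_open isOpen_interior ⟨_, hTinf⟩
    exact ⟨a, hTA (interior_subset ha)⟩
  · exact crit_coe hc
  · rintro n x ⟨w, hw, hx⟩
    rw [← hgr] at hx
    have hxT : x ∉ T := by
      intro h
      apply hρA w hw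
      rw [← hx]
      exact hTA (hTit n x h)
    induction x using OnePoint.rec with
    | infty => exact absurd (interior_subset hTinf) hxT
    | coe z =>
      refine ⟨z, rfl, ?_⟩
      by_contra hlt
      exact hxT (hR z (not_le.1 hlt))
  · intro n hn z hz z' hz'
    rw [← hgr]
    rcases Nat.lt_or_ge n (j + 1) with h | h
    · exact hWn n (Finset.mem_range.2 h) hn z hz z' hz'
    · intro he
      apply hρA z' (ball_subset_ball (by linarith) (hWs hz'))
      rw [← he]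
      have h3 : n = (n - (j + 1)) + (j + 1) := by omega
      rw [h3, Function.iterate_add_apply]
      exact hTA (hTit _ _ (interior_subset (hWm z hz)))

end Pool.Agent.H57.CF
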