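import Pool.Agent.H57.CF.VLF
import Pool.Agent.H57.CF.CRF
import Pool.Agent.H57.CF.CSF
import Pool.Agent.H57.CP.END
import Pool.Agent.H44.CP.PFN
import Pool.Agent.H79.GP.GTF
import Pool.Agent.H56.RD.AFS

/-!
# Stage F: THEOREM P in the families `F(d,k)`, `2 ≤ k ≤ d`

`a` of degree `d`, `b` of degree at most `d - k`; infinity is a superattracting fixed point; `k = d`: polynomials.
`P1F`: if the number of non attracted critical points is locally maximal in the family, then the critical points in the Julia set are in the closure of the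
forward orbits of the critical points. `p_ndF`: outside of a nowhere dense set of parameters the conclusion `ConcP` holds.
-/

set_option autoImplicit false

open MeasureTheory Metric Set Polynomial Filter Topology

namespace Pool.Agent.H57.CF

open Pool.Agent.H44.Fatou (rat ev wv rat_continuous)
open Pool.Agent.H32.BT Pool.Agent.H80.AJ Pool.Agent.H61.TT Pool.Agent.H35.EX Pool.Agent.H79.Eul Pool.Agent.H79.Par
open Pool.Agent.H44.RC Pool.Agent.H44.CP Pool.Agent.H44.ND Pool.Agent.H79.ES Pool.Agent.H84.BR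
open Pool.Agent.H44.RG Pool.Agent.H57.CP Pool.Agent.H47.NM Pool.Agent.H47.NN Pool.Agent.H47.RJ Pool.Agent.H44.RR Pool.Agent.H56.HR

variable {d k : ℕ}

private theorem not_count {a : OnePoint ℂ} {U S : Set (OnePoint ℂ)} (hU : U ∈ 𝓝 a)
    (hS : S.Countable) : ∃ w ∈ U, w ∉ S := by
  have hden : DenseRange ((↑) : ℂ → OnePoint ℂ) := OnePoint.denseRange_coe
  obtain ⟨V, hVU, hV, haV⟩ := _root_.mem_nhds_iff.1 hU
  obtain ⟨y, hy⟩ := hden.exists_mem_open hV ⟨a, haV⟩
  have hop : IsOpen (((↑) : ℂ → OnePoint ℂ) ⁻¹' V) := hV.preimage OnePoint.continuous_coe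
  have hbad : (((↑) : ℂ → OnePoint ℂ) ⁻¹' S).Countable :=
    hS.preimage_of_injOn (OnePoint.coe_injective.injOn)
  obtain ⟨s, hsV, hsS⟩ := (hbad.dense_compl ℂ).inter_open_nonempty _ hop ⟨y, hy⟩
  exact ⟨_, hVU hsV, hsS⟩

/-- attracted points are in the Fatou set -/
theorem att_fs_ar {v : E d} (hd : 1 ≤ d) (hcop : IsCoprime (pol v.1) (pol v.2))
    (hdeg : max (pol v.1).natDegree (pol v.2).natDegree = d) (hAR : AR v)
    {x : OnePoint ℂ} (hx : Att (Rf v) x) : x ∈ FS (Rf v) := by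
  obtain ⟨a, n, hs, ht⟩ := hx
  have ha : a ∈ FS (Rf v) := by
    rcases hAR n hs.1 a hs.2.1 with h1 | ⟨ρ, κ, g, hR⟩
    · exact h1.2
    · exfalso
      obtain ⟨-, hfix, U, hU, hUc⟩ := hs
      have hS : (⋃ k : ℕ, {z | (Rf v)^[n * k] z = a}).Countable :=
        countable_iUnion fun k => (cnt_le hd hcop hdeg (n * k) a).1.countable
      obtain ⟨w, hwU, hwS⟩ := not_count hU hS
      have h3 := ch_tend.1 (hUc w hwU) ρ hR.hρ
      obtain ⟨K, hK⟩ := eventually_atTop.1 h3
      apply hwS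
      refine mem_iUnion.2 ⟨K, ?_⟩
      have hstep : ∀ k, K ≤ k → chord a ((Rf v)^[n * k] w) ≤
          κ * chord a ((Rf v)^[n * (k + 1)] w) := by
        intro k hk
        have e : (Rf v)^[n * (k + 1)] w = (Rf v)^[n] ((Rf v)^[n * k] w) := by
          rw [← Function.iterate_add_apply]
          congr 2
          ring
        have h6 := hR.left ((Rf v)^[n * k] w) (hK k hk) (by rw [← e]; exact hK (k + 1) (by omega))
        have h7 := hR.contr ((Rf v)^[n] ((Rf v)^[n * k] w))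
          (by rw [← e]; exact hK (k + 1) (by omega))
        rw [h6] at h7
        rw [e]
        exact h7
      have h6 : ∀ j : ℕ, chord a ((Rf v)^[n * K] w) ≤ κ ^ j * chord a ((Rf v)^[n * (K + j)] w) := by
        intro j
        induction j with
        | zero => simp
        | succ j ih =>
          refine ih.trans ?_
          rw [pow_succ, mul_assoc]
          exact mul_le_mul_of_nonneg_left (hstep (K + j) (by omega)) (pow_nonneg hR.hκ j)
      have h7 : ∀ j : ℕ, chord a ((Rf v)^[n * K] w) ≤ κ ^ j * ρ := fun j =>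
        (h6 j).trans (mul_le_mul_of_nonneg_left (hK (K + j) (by omega)).le (pow_nonneg hR.hκ j))
      have h8 : Tendsto (fun j : ℕ => κ ^ j * ρ) atTop (𝓝 (0 * ρ)) :=
        (tendsto_pow_atTop_nhds_zero_of_lt_one hR.hκ hR.hκ1).mul_const _
      rw [zero_mul] at h8
      have h9 : chord a ((Rf v)^[n * K] w) ≤ 0 := ge_of_tendsto' h8 h7
      exact (chord_eqz (le_antisymm h9 (chord_nn _ _))).symm
  obtain ⟨k, hk⟩ := (ht.eventually ((Pool.Agent.H56.HR.fs_open (Rf v)).mem_nhds ha)).exists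
  exact (fs_iff hd hcop hdeg _ x).1 hk

/-- no critical point in the Julia set: all critical points are attracted -/
theorem hyp_ar {v : E d} (hd : 2 ≤ d) (hcop : IsCoprime (pol v.1) (pol v.2))
    (hdeg : max (pol v.1).natDegree (pol v.2).natDegree = d) (hN : AR v)
    (hJ : ∀ c, IsCrit (Rf v) c → c ∉ JS (Rf v)) : HypMap (Rf v) := by
  have hd1 : 1 ≤ d := by omega
  have hW := nw_all hd hcop hdeg
  have hF : FJ (Rf v) := fj_of_nw_ar hd1 hcop hdeg hN hW
  have hM := manec hd hcop hdeg hF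
  have hinv : MapsTo (Rf v) (JS (Rf v)) (JS (Rf v)) := fun x hx =>
    (js_iff hd1 hcop hdeg 1 x).2 hx
  have hE : Expd (Rf v) (JS (Rf v)) := by
    refine exp7 hd hcop hdeg (js_closed _) subset_rfl hinv (fun x hx hc => hJ x hc hx) ?_
    refine hM _ (js_closed _) subset_rfl hinv ?_
    exact rl_of (rat_continuous hcop) hF (js_closed _) subset_rfl
      fun c hc _ hcJ => absurd hcJ (hJ c hc)
  intro c hc
  by_contra hna
  have hcF : c ∈ FS (Rf v) := by
    by_contra h
    exact hJ c hc h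
  obtain ⟨p, z0, b, ψ, hR⟩ := rot_of_nonatt_ar hd1 hcop hdeg hN hW hcF hna
  exact exp_norot hd hcop hdeg hF hE hR

theorem dm_ex (hk : 2 ≤ k) (hkd : k ≤ d) {w : E d} (hw : w ∈ Pool.Agent.H79.GP.Dm d k) :
    ∃ y : Em d k, ex d k y = w := by
  refine ⟨(w.1, fun i => w.2 ⟨i, by omega⟩), ?_⟩
  refine Prod.ext rfl (funext fun i => ?_)
  unfold ex
  by_cases h : (i : ℕ) < d - k + 1
  · simp only [h, dite_true]
  · simp only [h, dite_false]
    exact (hw i (by omega)).symm

/-- (P1) in the family -/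
theorem P1F (hd : 2 ≤ d) (hk : 2 ≤ k) (hkd : k ≤ d) {x : Em d k} (hg : GenM d k (pol x.1) (pol x.2))
    (hup : ¬ UpF d k x) : AR (ex d k x) ∧
      ∀ c : OnePoint ℂ, IsCrit (Rf (ex d k x)) c → c ∈ JS (Rf (ex d k x)) → c ∈ PC (Rf (ex d k x)) := by
  obtain ⟨hno, hvel⟩ := velF hd hk hkd hg hup
  have hAR := ar_m hk hkd hg hno
  refine ⟨hAR, fun c hc hJ => ?_⟩
  by_contra hP
  have hF := fam_ex hk hkd hg
  have hcop := hF.cop
  have hdeg := ex_deg (genM_deg hg)
  obtain ⟨h1, h2, h3⟩ := inf_sink hF one_pos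
  obtain ⟨T, hT, hTinf⟩ := trap_of_sink hcop (by rw [hdeg]; omega) h2
  have hcinf : c ≠ OnePoint.infty := by
    rintro rfl
    exact hJ h3
  have hna : c ∉ T := fun h => hJ (att_fs_ar (by omega) hcop hdeg hAR (hT.att c h))
  induction c using OnePoint.rec with
  | infty => exact hcinf rfl
  | coe c1 =>
    obtain ⟨ρ, R0, A, W, hCS⟩ := cs_of hd hcop hdeg hT hTinf hc hJ hna hP
    have hbk : (pol (ex d k x).2).natDegree + k ≤ d := by
      rw [hF.hb]
      omega
    obtain ⟨w, C0, hw, hcore⟩ := coreF hCS (by omega) hkd hbk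
    obtain ⟨w', hw', hxi⟩ := Pool.Agent.H79.GP.xi_surjm hd hF hw
    obtain ⟨y, hy⟩ := dm_ex hk hkd hw'
    obtain ⟨C, -, hC⟩ := hvel y
    obtain ⟨ε, hε⟩ : ∃ ε, ε = 1 / (|C0| + |C| + 1) := ⟨_, rfl⟩
    have hD : 0 < |C0| + |C| + 1 := by positivity
    have hε0 : 0 < ε := by rw [hε]; positivity
    obtain ⟨N, z, hz, hm, hzε, hmin⟩ := per hCS hJ hε0
    obtain ⟨u, hu0, hup, hu⟩ := hC N z _ hz.hN (cyc_of_cyp hz) hm
    have h1 := hcore N z hz hmin u hup (fun i hi => by
      rw [hu i hi, hy, hxi]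
      unfold Pool.Agent.H61.TT.dg
      rw [wv_pol, ev_pol])
    have hne : 0 < ‖z 0 - c1‖ := norm_pos_iff.2 (sub_ne_zero.2 (hz.nc 0))
    have h2 : |C0| + |C| + 1 < ‖z 0 - c1‖⁻¹ := by
      rw [lt_inv_comm₀ hD hne, ← one_div]
      rwa [hε] at hzε
    have h3 := le_abs_self C0
    have h4 := le_abs_self C
    have h5 := hu0 0 (Nat.zero_le _)
    linarith

theorem hyp_nwd {V : Type*} [NormedAddCommGroup V] [NormedSpace ℂ V] (L : V →L[ℂ] ℂ) {x0 : V} (h : L x0 ≠ 0) :
    IsNowhereDense {x : V | L x = 0} := by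
  rw [(isClosed_eq L.continuous continuous_const).isNowhereDense_iff]
  by_contra hne
  have h1 : (interior ((LinearMap.ker L.toLinearMap : Submodule ℂ V) : Set V)).Nonempty := by
    exact nonempty_iff_ne_empty.2 hne
  have h2 := Submodule.eq_top_of_nonempty_interior' _ h1
  have h3 : x0 ∈ LinearMap.ker L.toLinearMap := by rw [h2]; trivial
  exact h h3

theorem nwd_union {V : Type*} [TopologicalSpace V] {A B : Set V} (hA : IsNowhereDense A) (hB : IsNowhereDense B) :
    IsNowhereDense (A ∪ B) := by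
  unfold IsNowhereDense at hA hB ⊢
  rw [closure_union, interior_union_isClosed_of_interior_empty isClosed_closure hB]
  exact hA

/-- THEOREM P in the families -/
theorem p_ndF (hd : 2 ≤ d) (hk : 2 ≤ k) (hkd : k ≤ d) :
    IsNowhereDense {x : Em d k | IsCoprime (pol x.1) (pol x.2) ∧
      max (pol x.1).natDegree (pol x.2).natDegree = d ∧ ¬ ConcP (Rf (ex d k x))} := by
  obtain ⟨L1, hL1⟩ : ∃ L : Em d k →L[ℂ] ℂ, ∀ x, L x = x.2 (Fin.last (d - k)) :=
    ⟨(ContinuousLinearMap.proj (Fin.last (d - k))).comp (ContinuousLinearMap.snd ℂ _ _), fun x => rfl⟩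
  obtain ⟨L2, hL2⟩ : ∃ L : Em d k →L[ℂ] ℂ, ∀ x, L x = x.1 0 :=
    ⟨(ContinuousLinearMap.proj 0).comp (ContinuousLinearMap.fst ℂ _ _), fun x => rfl⟩
  obtain ⟨L3, hL3⟩ : ∃ L : Em d k →L[ℂ] ℂ, ∀ x, L x = x.2 0 :=
    ⟨(ContinuousLinearMap.proj 0).comp (ContinuousLinearMap.snd ℂ _ _), fun x => rfl⟩
  have n1 : IsNowhereDense {x : Em d k | L1 x = 0} := hyp_nwd L1 (x0 := (1, 1)) (by rw [hL1]; exact one_ne_zero)
  have n2 : IsNowhereDense {x : Em d k | L2 x = 0} := hyp_nwd L2 (x0 := (1, 1)) (by rw [hL2]; exact one_ne_zero)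
  have n3 : IsNowhereDense {x : Em d k | L3 x = 0} := hyp_nwd L3 (x0 := (1, 1)) (by rw [hL3]; exact one_ne_zero)
  refine (nwd_union (nwd_union (nwd_union n1 n2) n3) (upF_nwd (d := d) (k := k) hd)).mono ?_
  rintro x ⟨hcop, hdeg, hnot⟩
  by_contra hx
  simp only [mem_union, mem_setOf_eq, not_or, hL1, hL2, hL3] at hx
  obtain ⟨⟨⟨x1, x2⟩, x3⟩, x4⟩ := hx
  have hup : ¬ UpF d k x := fun h => x4 ⟨hcop, hdeg, h⟩
  have hlast : x.1 (Fin.last d) ≠ 0 := by
    intro h0
    have e1 : (pol x.1).natDegree ≤ d := pol_deg _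
    have e2 : (pol x.2).natDegree ≤ d - k := pol_deg _
    have e3 : (pol x.1).natDegree = d := by omega
    have e4 : (pol x.1).coeff d = x.1 (Fin.last d) := pol_coeff x.1 (Fin.last d)
    rw [h0] at e4
    have e5 : pol x.1 ≠ 0 := by
      intro h
      rw [h, natDegree_zero] at e3
      omega
    have e6 := leadingCoeff_ne_zero.2 e5
    unfold leadingCoeff at e6
    rw [e3] at e6
    exact e6 e4
  have hg := (genM_iff hkd).2 ⟨hcop, hlast, x1, x2, x3⟩
  obtain ⟨hAR, hPC⟩ := P1F hd hk hkd hg hup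
  have hcop' := ex_cop hcop
  have hdeg' := ex_deg hdeg
  have hpart := fun c hc hcJ => to_rec hd hcop' hdeg' hAR hPC (c := c) hc hcJ
  apply hnot
  refine ⟨hpart, ?_⟩
  by_cases hJ : ∃ c, IsCrit (Rf (ex d k x)) c ∧ c ∈ JS (Rf (ex d k x))
  · obtain ⟨c, hc, hcJ⟩ := hJ
    obtain ⟨r, hr1, hr2, hr3, -⟩ := hpart c hc hcJ
    exact Or.inr ⟨r, hr1, hr2, hr3⟩
  · push Not at hJ
    exact Or.inl (hyp_ar hd hcop' hdeg' hAR hJ)

end Pool.Agent.H57.CF
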