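import Pool.Agent.H57.CF.ENF
import Pool.Agent.H32.RB.Main

/-!
# Stage F: (P1) at all parameters of the families

`em`: the inclusion of the family `F(d,k')` in `F(d,k)`, `k ≤ k'`; `Tr s`: conjugation with the translation `z ↦ z - s`. A map of `F(d,k)` is after an
inclusion and a translation generic (`GenM`), so `P1F` holds at all parameters.
-/

set_option autoImplicit false

open MeasureTheory Metric Set Polynomial Filter Topology

namespace Pool.Agent.H57.CF

open Pool.Agent.H44.Fatou (rat ev wv rat_continuous rat_coe_of_ne)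
open Pool.Agent.H32.BT Pool.Agent.H80.AJ Pool.Agent.H61.TT Pool.Agent.H35.EX Pool.Agent.H79.Eul Pool.Agent.H79.Par
open Pool.Agent.H44.RC Pool.Agent.H44.CP Pool.Agent.H44.ND Pool.Agent.H79.ES Pool.Agent.H84.BR
open Pool.Agent.H44.RG Pool.Agent.H57.CP Pool.Agent.H47.NM Pool.Agent.H47.NN Pool.Agent.H47.RJ

variable {d k : ℕ}

noncomputable def cf (n : ℕ) (P : Polynomial ℂ) : Fin (n + 1) → ℂ := fun i => P.coeff i

theorem pol_cf {n : ℕ} {P : Polynomial ℂ} (h : P.natDegree ≤ n) : pol (cf n P) = P := by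
  ext i
  rw [pol_coeff']
  by_cases hi : i < n + 1
  · rw [dif_pos hi]
    rfl
  · rw [dif_neg hi, coeff_eq_zero_of_natDegree_lt (by omega)]

theorem cf_pol {n : ℕ} (v : Fin (n + 1) → ℂ) : cf n (pol v) = v := funext fun i => pol_coeff v i

theorem comp_deg (P : Polynomial ℂ) (s : ℂ) : (P.comp (X + C s)).natDegree = P.natDegree := by
  rw [natDegree_comp, natDegree_X_add_C, mul_one]

/-- translation in the family -/
noncomputable def Tr (d k : ℕ) (s : ℂ) (x : Em d k) : Em d k :=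
  (cf d ((pol x.1).comp (X + C s) - C s * (pol x.2).comp (X + C s)), cf (d - k) ((pol x.2).comp (X + C s)))

theorem pol_tr1 (s : ℂ) (x : Em d k) :
    pol (Tr d k s x).1 = (pol x.1).comp (X + C s) - C s * (pol x.2).comp (X + C s) := by
  apply pol_cf
  have h1 : ((pol x.1).comp (X + C s)).natDegree ≤ d := by rw [comp_deg]; exact pol_deg _
  have h2 : (C s * (pol x.2).comp (X + C s)).natDegree ≤ d := by
    refine (natDegree_C_mul_le _ _).trans ?_
    rw [comp_deg]
    have := pol_deg x.2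
    omega
  exact (natDegree_sub_le _ _).trans (max_le h1 h2)

theorem pol_tr2 (s : ℂ) (x : Em d k) : pol (Tr d k s x).2 = (pol x.2).comp (X + C s) :=
  pol_cf (P := (pol x.2).comp (X + C s)) (by rw [comp_deg]; exact pol_deg _)

theorem comp_comp (P : Polynomial ℂ) (s : ℂ) : (P.comp (X + C s)).comp (X + C (-s)) = P := by
  rw [comp_assoc]
  have h : (X + C s : Polynomial ℂ).comp (X + C (-s)) = X := by
    rw [add_comp, X_comp, C_comp, add_assoc, ← C_add, neg_add_cancel, C_0, add_zero]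
  rw [h, comp_X]

theorem tr_inv (s : ℂ) (x : Em d k) : Tr d k (-s) (Tr d k s x) = x := by
  have e2 : pol (Tr d k (-s) (Tr d k s x)).2 = pol x.2 := by
    rw [pol_tr2, pol_tr2, comp_comp]
  have e1 : pol (Tr d k (-s) (Tr d k s x)).1 = pol x.1 := by
    rw [pol_tr1, pol_tr1, pol_tr2, sub_comp, mul_comp, C_comp, comp_comp, comp_comp, C_neg]
    ring
  refine Prod.ext ?_ ?_
  · rw [← cf_pol (Tr d k (-s) (Tr d k s x)).1, e1, cf_pol]
  · rw [← cf_pol (Tr d k (-s) (Tr d k s x)).2, e2, cf_pol]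

theorem comp_cont (n : ℕ) (q : Polynomial ℂ) (i : ℕ) :
    Continuous fun v : Fin (n + 1) → ℂ => ((pol v).comp q).coeff i := by
  have h : (fun v : Fin (n + 1) → ℂ => ((pol v).comp q).coeff i) =
      fun v => ∑ j : Fin (n + 1), v j * (q ^ (j : ℕ)).coeff i := by
    funext v
    unfold pol
    rw [← coe_compRingHom_apply, map_sum, finsetSum_coeff]
    simp only [coe_compRingHom_apply]
    refine Finset.sum_congr rfl fun j _ => ?_
    rw [mul_comp, C_comp, X_pow_comp, coeff_C_mul]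
  rw [h]
  fun_prop

theorem tr_cont (s : ℂ) : Continuous (Tr d k s) := by
  have h2 : ∀ i : ℕ, Continuous fun x : Em d k => ((pol x.2).comp (X + C s)).coeff i := fun i =>
    (comp_cont (d - k) (X + C s) i).comp continuous_snd
  have h1 : ∀ i : ℕ, Continuous fun x : Em d k => ((pol x.1).comp (X + C s)).coeff i := fun i =>
    (comp_cont d (X + C s) i).comp continuous_fst
  refine Continuous.prodMk (continuous_pi fun i => ?_) (continuous_pi fun i => h2 i)
  have h3 : (fun x : Em d k => cf d ((pol x.1).comp (X + C s) - C s * (pol x.2).comp (X + C s)) i) =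
      fun x : Em d k => ((pol x.1).comp (X + C s)).coeff i - s * ((pol x.2).comp (X + C s)).coeff i := by
    funext x
    unfold cf
    rw [coeff_sub, coeff_C_mul]
  show Continuous (fun x : Em d k => cf d ((pol x.1).comp (X + C s) - C s * (pol x.2).comp (X + C s)) i)
  rw [h3]
  exact (h1 i).sub (continuous_const.mul (h2 i))

theorem tr_cop {s : ℂ} {x : Em d k} (h : IsCoprime (pol x.1) (pol x.2)) :
    IsCoprime (pol (Tr d k s x).1) (pol (Tr d k s x).2) := by
  rw [pol_tr1, pol_tr2]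
  have h1 : IsCoprime ((pol x.1).comp (X + C s)) ((pol x.2).comp (X + C s)) := h.map (compRingHom (X + C s))
  have h2 := h1.add_mul_left_left (-C s)
  have e : (pol x.1).comp (X + C s) + (pol x.2).comp (X + C s) * -C s =
      (pol x.1).comp (X + C s) - C s * (pol x.2).comp (X + C s) := by ring
  rwa [e] at h2

theorem fam_a (hk : 2 ≤ k) (hkd : k ≤ d) {x : Em d k} (h : max (pol x.1).natDegree (pol x.2).natDegree = d) :
    (pol x.1).natDegree = d := by
  have h1 := pol_deg x.2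
  have h2 := pol_deg x.1
  omega

theorem tr_dega (hk : 2 ≤ k) (hkd : k ≤ d) {s : ℂ} {x : Em d k}
    (h : max (pol x.1).natDegree (pol x.2).natDegree = d) : (pol (Tr d k s x).1).natDegree = d := by
  have h1 := fam_a hk hkd h
  rw [pol_tr1, natDegree_sub_eq_left_of_natDegree_lt, comp_deg, h1]
  rw [comp_deg, h1]
  refine (natDegree_C_mul_le _ _).trans_lt ?_
  rw [comp_deg]
  have := pol_deg x.2
  omega

theorem tr_degb {s : ℂ} {x : Em d k} : (pol (Tr d k s x).2).natDegree = (pol x.2).natDegree := by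
  rw [pol_tr2, comp_deg]

theorem tr_deg (hk : 2 ≤ k) (hkd : k ≤ d) {s : ℂ} {x : Em d k}
    (h : max (pol x.1).natDegree (pol x.2).natDegree = d) :
    max (pol (Tr d k s x).1).natDegree (pol (Tr d k s x).2).natDegree = d := by
  rw [tr_dega hk hkd h, tr_degb]
  have := pol_deg x.2
  omega

theorem tr_homeo (s : ℂ) : ∃ φ : OnePoint ℂ ≃ₜ OnePoint ℂ, (∀ z : ℂ, φ (z : OnePoint ℂ) = ((z - s : ℂ) : OnePoint ℂ)) ∧
    φ OnePoint.infty = OnePoint.infty ∧
    ∃ K : ℝ, ∀ x y, chord (φ x) (φ y) ≤ K * chord x y ∧ chord x y ≤ K * chord (φ x) (φ y) := by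
  obtain ⟨φs, s1, s2, s3, -⟩ := exists_mob s
  obtain ⟨φ0, o1, o2, o3, -⟩ := exists_mob 0
  obtain ⟨Ks, hKs, hs⟩ := chord_bilip s2 s1 s3
  obtain ⟨K0, hK0, ho⟩ := chord_bilip o2 o1 o3
  refine ⟨φs.trans φ0.symm, fun z => ?_, ?_, Ks * K0, fun x y => ?_⟩
  · show φ0.symm (φs z) = _
    rw [Homeomorph.symm_apply_eq]
    by_cases hz : z = s
    · subst hz
      rw [s2, sub_self, o2]
    · rw [s1 z hz, o1 _ (sub_ne_zero.2 hz), sub_zero]
  · show φ0.symm (φs OnePoint.infty) = _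
    rw [Homeomorph.symm_apply_eq, s3, o3]
  · show chord (φ0.symm (φs x)) (φ0.symm (φs y)) ≤ _ ∧ _ ≤ _ * chord (φ0.symm (φs x)) (φ0.symm (φs y))
    have h1 := hs x y
    have h2 := ho (φ0.symm (φs x)) (φ0.symm (φs y))
    rw [Homeomorph.apply_symm_apply, Homeomorph.apply_symm_apply] at h2
    have hs0 : 0 ≤ Ks := by linarith
    have ho0 : 0 ≤ K0 := by linarith
    constructor
    · calc _ ≤ K0 * chord (φs x) (φs y) := h2.2
        _ ≤ K0 * (Ks * chord x y) := mul_le_mul_of_nonneg_left h1.1 ho0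
        _ = Ks * K0 * chord x y := by ring
    · calc _ ≤ Ks * chord (φs x) (φs y) := h1.2
        _ ≤ Ks * (K0 * chord (φ0.symm (φs x)) (φ0.symm (φs y))) := mul_le_mul_of_nonneg_left h2.1 hs0
        _ = Ks * K0 * chord (φ0.symm (φs x)) (φ0.symm (φs y)) := by ring

theorem tr_conj (hd : 2 ≤ d) {s : ℂ} {x : Em d k} (hc : IsCoprime (pol x.1) (pol x.2))
    (hde : max (pol x.1).natDegree (pol x.2).natDegree = d) {φ : OnePoint ℂ ≃ₜ OnePoint ℂ}
    (hφ : ∀ z : ℂ, φ (z : OnePoint ℂ) = ((z - s : ℂ) : OnePoint ℂ)) (hk : 2 ≤ k) (hkd : k ≤ d) :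
    ∀ y, Rf (ex d k (Tr d k s x)) (φ y) = φ (Rf (ex d k x) y) := by
  have hcop' := tr_cop (s := s) hc
  have hB0 : pol (Tr d k s x).2 ≠ 0 := den_ne_zero hcop' (by rw [tr_deg hk hkd hde]; omega)
  obtain ⟨g, hg⟩ : ∃ g : OnePoint ℂ → OnePoint ℂ, g = fun y => φ (Rf (ex d k x) (φ.symm y)) := ⟨_, rfl⟩
  have hext : Pool.Agent.H32.RB.IsExt g (pol (Tr d k s x).1) (pol (Tr d k s x).2) := by
    refine ⟨?_, fun z hz => ?_⟩
    · rw [hg]
      exact φ.continuous.comp ((rat_continuous (ex_cop hc)).comp φ.symm.continuous)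
    · rw [pol_tr2, eval_comp, eval_add, eval_X, eval_C] at hz
      have e1 : φ.symm (OnePoint.some z) = ((z + s : ℂ) : OnePoint ℂ) := by
        rw [Homeomorph.symm_apply_eq, hφ, add_sub_cancel_right]
      have e2 : Rf (ex d k x) ((z + s : ℂ) : OnePoint ℂ) =
          (((pol x.1).eval (z + s) / (pol x.2).eval (z + s) : ℂ) : OnePoint ℂ) := by
        unfold Rf
        rw [(ex_pol x).1, (ex_pol x).2]
        exact rat_coe_of_ne hz
      rw [hg]
      show φ (Rf (ex d k x) (φ.symm (OnePoint.some z))) = _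
      rw [e1, e2, hφ, pol_tr1, pol_tr2, eval_sub, eval_mul, eval_C, eval_comp, eval_comp, eval_add, eval_X, eval_C]
      congr 1
      rw [sub_div, mul_div_assoc, div_self hz, mul_one]
  have hgr := Pool.Agent.H32.RB.ext_eq hcop' hB0 hext
  intro y
  have e3 : Rf (ex d k (Tr d k s x)) = g := by
    rw [hgr]
    unfold Rf
    rw [(ex_pol _).1, (ex_pol _).2]
  rw [e3, hg]
  show φ (Rf (ex d k x) (φ.symm (φ y))) = _
  rw [Homeomorph.symm_apply_apply]

theorem tr_na (hd : 2 ≤ d) (hk : 2 ≤ k) (hkd : k ≤ d) (s : ℂ) {x : Em d k} (hc : IsCoprime (pol x.1) (pol x.2))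
    (hde : max (pol x.1).natDegree (pol x.2).natDegree = d) : NA (ex d k (Tr d k s x)) = NA (ex d k x) := by
  obtain ⟨φ, h1, -, -⟩ := tr_homeo s
  exact na_conj φ fun y => (tr_conj hd hc hde h1 hk hkd y).symm

theorem tr_up (hd : 2 ≤ d) (hk : 2 ≤ k) (hkd : k ≤ d) (s : ℂ) {x : Em d k} (hc : IsCoprime (pol x.1) (pol x.2))
    (hde : max (pol x.1).natDegree (pol x.2).natDegree = d) (h : UpF d k (Tr d k s x)) : UpF d k x := by
  intro ε hε
  have h1 : Tendsto (Tr d k (-s)) (𝓝 (Tr d k s x)) (𝓝 x) := by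
    have h2 := (tr_cont (d := d) (k := k) (-s)).tendsto (Tr d k s x)
    rwa [tr_inv] at h2
  obtain ⟨δ, hδ, h2⟩ := Metric.eventually_nhds_iff_ball.1 (h1.eventually (ball_mem_nhds x hε))
  obtain ⟨w, hw, w1, w2, w3⟩ := h δ hδ
  refine ⟨Tr d k (-s) w, h2 w hw, tr_cop w1, tr_deg hk hkd w2, ?_⟩
  rw [tr_na hd hk hkd (-s) w1 w2]
  rwa [tr_na hd hk hkd s hc hde] at w3

/-- the inclusion of the families -/
noncomputable def em (d k l : ℕ) (y : Em d l) : Em d k :=
  (y.1, fun i => if h : (i : ℕ) < d - l + 1 then y.2 ⟨i, h⟩ else 0)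

theorem em_ex {l : ℕ} (hkl : k ≤ l) (y : Em d l) : ex d k (em d k l y) = ex d l y := by
  refine Prod.ext rfl (funext fun i => ?_)
  unfold ex em
  by_cases h : (i : ℕ) < d - l + 1
  · have h' : (i : ℕ) < d - k + 1 := by omega
    simp only [h, h', dite_true]
  · by_cases h' : (i : ℕ) < d - k + 1
    · simp only [h, h', dite_true, dite_false]
    · simp only [h, h', dite_false]

theorem em_pol {l : ℕ} (hkl : k ≤ l) (y : Em d l) : pol (em d k l y).2 = pol y.2 := by
  rw [← (ex_pol (em d k l y)).2, em_ex hkl, (ex_pol y).2]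

theorem em_dist {l : ℕ} (y z : Em d l) : dist (em d k l y) (em d k l z) ≤ dist y z := by
  rw [Prod.dist_eq, Prod.dist_eq]
  refine max_le (le_max_left _ _) ?_
  refine (dist_pi_le_iff (dist_nonneg.trans (le_max_left _ _))).2 fun i => ?_
  unfold em
  by_cases h : (i : ℕ) < d - l + 1
  · simp only [h, dite_true]
    exact (dist_le_pi_dist y.2 z.2 ⟨i, h⟩).trans (le_max_right _ _)
  · simp only [h, dite_false, dist_self]
    exact dist_nonneg.trans (le_max_left _ _)

theorem em_up {l : ℕ} (hkl : k ≤ l) {y : Em d l} (h : UpF d l y) : UpF d k (em d k l y) := by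
  intro ε hε
  obtain ⟨w, hw, w1, w2, w3⟩ := h ε hε
  refine ⟨em d k l w, ?_, ?_, ?_, ?_⟩
  · rw [mem_ball] at hw ⊢
    exact (em_dist w y).trans_lt hw
  · rw [em_pol hkl]
    exact w1
  · rw [em_pol hkl]
    exact w2
  · rw [em_ex hkl, em_ex hkl]
    exact w3

theorem em_sur (hkd : k ≤ d) (x : Em d k) :
    ∃ (l : ℕ) (y : Em d l), k ≤ l ∧ l ≤ d ∧ (pol x.2).natDegree = d - l ∧ em d k l y = x := by
  have h1 := pol_deg x.2
  obtain ⟨l, hl⟩ : ∃ l, l = d - (pol x.2).natDegree := ⟨_, rfl⟩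
  refine ⟨l, (x.1, cf (d - l) (pol x.2)), by omega, by omega, by omega, ?_⟩
  refine Prod.ext rfl (funext fun i => ?_)
  unfold em cf
  by_cases h : (i : ℕ) < d - l + 1
  · simp only [h, dite_true]
    exact pol_coeff x.2 i
  · simp only [h, dite_false]
    rw [← pol_coeff x.2 i, coeff_eq_zero_of_natDegree_lt (by omega)]

theorem pc_conj {f g : OnePoint ℂ → OnePoint ℂ} (φ : OnePoint ℂ ≃ₜ OnePoint ℂ)
    (hφ : ∀ x, g (φ x) = φ (f x)) {x : OnePoint ℂ} (h : φ x ∈ PC g) : x ∈ PC f := by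
  unfold PC at h ⊢
  have e : {y | ∃ c, IsCrit g c ∧ ∃ n : ℕ, 1 ≤ n ∧ g^[n] c = y} =
      φ '' {y | ∃ c, IsCrit f c ∧ ∃ n : ℕ, 1 ≤ n ∧ f^[n] c = y} := by
    ext y
    constructor
    · rintro ⟨c, hc, n, hn, rfl⟩
      obtain ⟨c, rfl⟩ := φ.surjective c
      exact ⟨f^[n] c, ⟨c, (isCrit_conj φ hφ c).1 hc, n, hn, rfl⟩, (iter_conj φ hφ n c).symm⟩
    · rintro ⟨_, ⟨c, hc, n, hn, rfl⟩, rfl⟩
      exact ⟨φ c, (isCrit_conj φ hφ c).2 hc, n, hn, iter_conj φ hφ n c⟩
  rw [e, ← φ.image_closure] at h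
  obtain ⟨y, hy, hyx⟩ := h
  rwa [φ.injective hyx] at hy

/-- (P1) at all parameters of the families -/
theorem P1F_all (hd : 2 ≤ d) (hk : 2 ≤ k) (hkd : k ≤ d) {x : Em d k} (hcop : IsCoprime (pol x.1) (pol x.2))
    (hdeg : max (pol x.1).natDegree (pol x.2).natDegree = d) {c : OnePoint ℂ} (hc : IsCrit (Rf (ex d k x)) c)
    (hJ : c ∈ JS (Rf (ex d k x))) (hP : c ∉ PC (Rf (ex d k x))) : UpF d k x := by
  obtain ⟨l, y, hkl, hld, hn, rfl⟩ := em_sur hkd x
  have hl2 : 2 ≤ l := by omega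
  rw [em_pol hkl y] at hcop hdeg hn
  have hcop' : IsCoprime (pol y.1) (pol y.2) := hcop
  have hdeg' : max (pol y.1).natDegree (pol y.2).natDegree = d := hdeg
  rw [em_ex hkl] at hc hJ hP
  apply em_up hkl
  have ha := fam_a hl2 hld hdeg'
  have hQ0 : pol y.2 ≠ 0 := den_ne_zero hcop' (by rw [hdeg']; omega)
  have hR0 : pol y.1 - X * pol y.2 ≠ 0 := by
    intro h
    have h1 := sub_eq_zero.1 h
    have h2 : (X * pol y.2).natDegree ≤ d - l + 1 := by
      refine natDegree_mul_le.trans ?_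
      rw [natDegree_X]
      have := pol_deg y.2
      omega
    rw [← h1, ha] at h2
    omega
  obtain ⟨s, hs⟩ : ∃ s : ℂ, (pol y.2 * (pol y.1 - X * pol y.2)).eval s ≠ 0 := by
    by_contra hno
    push Not at hno
    exact mul_ne_zero hQ0 hR0 (Polynomial.funext fun r => by rw [hno r, eval_zero])
  rw [eval_mul, eval_sub, eval_mul, eval_X] at hs
  have hs2 := left_ne_zero_of_mul hs
  have hs1 := right_ne_zero_of_mul hs
  apply tr_up hd hl2 hld s hcop' hdeg'
  by_contra hup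
  have hg : GenM d l (pol (Tr d l s y).1) (pol (Tr d l s y).2) := by
    refine ⟨tr_cop hcop', tr_dega hl2 hld hdeg', by rw [tr_degb, hn], ?_, ?_⟩
    · rw [pol_tr1, eval_sub, eval_mul, eval_C, eval_comp, eval_comp, eval_add, eval_X, eval_C, zero_add]
      exact hs1
    · rw [pol_tr2, eval_comp, eval_add, eval_X, eval_C, zero_add]
      exact hs2
  obtain ⟨φ, h1, -, K, hK⟩ := tr_homeo s
  have hφ := tr_conj hd hcop' hdeg' h1 hl2 hld
  obtain ⟨-, hPC⟩ := P1F hd hl2 hld hg hup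
  have h2 := hPC (φ c) ((isCrit_conj φ hφ c).2 hc)
    (fun h => hJ ((Pool.Agent.H76.SU.fs_conj hK hφ c).1 h))
  exact hP (pc_conj φ hφ h2)

end Pool.Agent.H57.CF
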