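import Pool.Agent.H44.ND.PTB
import Pool.Agent.H47.NM.SML
import Pool.Agent.H47.NM.LNE
import Pool.Agent.H47.NM.MES

/-!
# Stage F (polynomials and the families `F(d, m)`): near a map of the family with a neutral cycle there is one where the cycle has become attracting

As H44/ND/PTB, along the line `t ↦ t f`, which stays in the family; `mfin_s`, `lnull_s`, `small_m` (H47/NM).
-/

set_option autoImplicit false

open Filter Topology Metric Set Polynomial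

namespace Pool.Agent.H57.CF

open Pool.Agent.H44.Fatou Pool.Agent.H79.Eul Pool.Agent.H79.Par Pool.Agent.H47.NN Pool.Agent.H44.NP Pool.Agent.H44.ND
open Pool.Agent.H47.NM

variable {d : ℕ}

private theorem lv_one (v : E d) : lv v 1 = v := by
  unfold lv
  rw [one_smul]

private theorem lv_an (v : E d) (q : ℂ × ℂ) :
    AnalyticAt ℂ (fun q : ℂ × ℂ => ((lv v q.1, q.2) : E d × ℂ)) q :=
  ((analyticAt_fst.smul analyticAt_const).prod analyticAt_const).prod analyticAt_snd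

private theorem gen_lv {m : ℕ} {v : E d} (h : GenM d m (pol v.1) (pol v.2)) {t : ℂ} (ht : t ≠ 0) :
    GenM d m (pol (lv v t).1) (pol (lv v t).2) := by
  show GenM d m (pol (t • v.1)) (pol v.2)
  rw [pol_smul]
  have hu : IsUnit (C t : Polynomial ℂ) := (isUnit_iff_ne_zero.2 ht).map C
  refine ⟨(isCoprime_mul_unit_left_left hu _ _).2 h.cop, ?_, h.hb, ?_, h.b0⟩
  · rw [natDegree_C_mul ht]
    exact h.ha
  · rw [eval_mul, eval_C]
    exact mul_ne_zero ht h.a0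

private theorem fix_of {v : E d} {p : ℕ} {z : ℂ} (hG : (v, z) ∈ Gp p) (hz : hz p (v, z) = 0) :
    (rat (pol v.1) (pol v.2))^[p] (z : OnePoint ℂ) = (z : OnePoint ℂ) := by
  have h2 := wi_rf p hG
  have h3 : wi p (v, z) = z := sub_eq_zero.1 hz
  rw [h3] at h2
  exact h2

private theorem cyc_of {v : E d} {p : ℕ} {z : ℂ} (hG : (v, z) ∈ Gp p) (hz : hz p (v, z) = 0) :
    Cyc (pol v.1) (pol v.2) p (fun i => wi i (v, z)) (mu p (v, z)) :=
  wi_cyc hG (sub_eq_zero.1 hz)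

private theorem dg_of {m : ℕ} {v : E d} (h : GenM d m (pol v.1) (pol v.2)) :
    max (pol v.1).natDegree (pol v.2).natDegree = d := by
  rw [h.ha, h.hb]
  omega

/-- the derivative of `g` in `z` -/
private theorem g_dz {v : E d} {p : ℕ} {q : ℂ × ℂ} (hG : (lv v q.1, q.2) ∈ Gp p) :
    fderiv ℂ (fun q : ℂ × ℂ => hz p (lv v q.1, q.2)) q (0, 1) = mu p (lv v q.1, q.2) - 1 := by
  have h1 : AnalyticAt ℂ (fun q : ℂ × ℂ => hz p (lv v q.1, q.2)) q :=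
    AnalyticAt.comp (g := hz p) (f := fun q : ℂ × ℂ => ((lv v q.1, q.2) : E d × ℂ))
      (hz_an p _ hG) (lv_an v q)
  have d1 := h1.differentiableAt.hasFDerivAt
  have d2 : HasDerivAt (fun w : ℂ => ((q.1, w) : ℂ × ℂ)) ((0, 1) : ℂ × ℂ) q.2 :=
    (hasDerivAt_const q.2 q.1).prodMk (hasDerivAt_id q.2)
  have d3 := HasFDerivAt.comp_hasDerivAt (f := fun w : ℂ => ((q.1, w) : ℂ × ℂ)) q.2 d1 d2
  have d4 : HasDerivAt (fun w : ℂ => wi p (lv v q.1, w) - w) (mu p (lv v q.1, q.2) - 1) q.2 :=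
    (wi_dz p hG).2.sub (hasDerivAt_id q.2)
  exact d3.unique d4

theorem ptf_e (hd : 2 ≤ d) {k : ℕ} (hk : 2 ≤ k) (hkd : k ≤ d) {v : E d} (h : GenM d k (pol v.1) (pol v.2))
    {p : ℕ} (hp : 0 < p) {x : ℕ → ℂ}
    {m : ℂ} (hc : Cyc (pol v.1) (pol v.2) p x m) (hm : ‖m‖ = 1) {ε : ℝ} (hε : 0 < ε) :
    ∃ t : ℂ, t ≠ 0 ∧ lv v t ∈ ball v ε ∧ ∃ (y : ℕ → ℂ) (m' : ℂ),
      Cyc (pol (lv v t).1) (pol (lv v t).2) p y m' ∧ ‖y 0 - x 0‖ < ε ∧ ‖m'‖ < 1 := by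
  obtain ⟨hG0, hw0, hmu0⟩ := cyc_wi hc
  obtain ⟨z0, hz0⟩ : ∃ z0, z0 = x 0 := ⟨_, rfl⟩
  rw [← hz0] at hG0 hw0 hmu0 ⊢
  -- the radius
  have hA : ∃ ε1 : ℝ, 0 < ε1 ∧ ε1 < ε ∧ ∀ z ∈ closedBall z0 ε1, (v, z) ∈ (Gp p : Set (E d × ℂ)) ∧
      (z ≠ z0 → hz p (v, z) ≠ 0) := by
    have hcont : Continuous fun s : ℂ => ((v, s) : E d × ℂ) := by fun_prop
    have e1 : ∀ᶠ s in 𝓝 z0, (v, s) ∈ (Gp p : Set (E d × ℂ)) :=
      hcont.continuousAt.eventually ((gp_open p).mem_nhds hG0)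
    have hfin := (per_card h.cop (dg_of h) hd hp).1
    have e2 : ∀ᶠ s in 𝓝 z0, s ∉ {z : ℂ | (rat (pol v.1) (pol v.2))^[p] (z : OnePoint ℂ) =
        (z : OnePoint ℂ)} \ {z0} :=
      (hfin.subset sdiff_subset).isClosed.isOpen_compl.mem_nhds (by simp)
    obtain ⟨ρ, hρ, hρ2⟩ := Metric.eventually_nhds_iff_ball.1 (e1.and e2)
    refine ⟨min (ε / 2) (ρ / 2), by positivity, ?_, fun z hz' => ?_⟩
    · exact (min_le_left _ _).trans_lt (by linarith)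
    · have hzb : z ∈ ball z0 ρ := by
        rw [mem_ball]
        have h1 := mem_closedBall.1 hz'
        have h2 := min_le_right (ε / 2) (ρ / 2)
        linarith
      obtain ⟨h1, h2⟩ := hρ2 z hzb
      refine ⟨h1, fun hne h0 => h2 ⟨fix_of h1 h0, hne⟩⟩
  obtain ⟨ε1, hε1, hε1', hA⟩ := hA
  obtain ⟨g, hgdef⟩ : ∃ g : ℂ × ℂ → ℂ, g = fun q => hz p (lv v q.1, q.2) := ⟨_, rfl⟩
  obtain ⟨M, hMdef⟩ : ∃ M : ℂ × ℂ → ℂ, M = fun q => mu p (lv v q.1, q.2) := ⟨_, rfl⟩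
  have hlv : Continuous (fun t : ℂ => lv v t) := by
    unfold lv
    fun_prop
  have hlv2 : Continuous (fun q : ℂ × ℂ => ((lv v q.1, q.2) : E d × ℂ)) :=
    (hlv.comp continuous_fst).prodMk continuous_snd
  have hg : ∀ z ∈ closedBall z0 ε1, AnalyticAt ℂ g (1, z) := by
    intro z hz'
    rw [hgdef]
    refine AnalyticAt.comp (g := hz p) (f := fun q : ℂ × ℂ => ((lv v q.1, q.2) : E d × ℂ))
      (hz_an p _ ?_) (lv_an v _)
    show (lv v 1, z) ∈ _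
    rw [lv_one]
    exact (hA z hz').1
  have hM : ∀ z ∈ closedBall z0 ε1, AnalyticAt ℂ M (1, z) := by
    intro z hz'
    rw [hMdef]
    refine AnalyticAt.comp (g := mu p) (f := fun q : ℂ × ℂ => ((lv v q.1, q.2) : E d × ℂ))
      (mu_an p ?_) (lv_an v _)
    show (lv v 1, z) ∈ _
    rw [lv_one]
    exact (hA z hz').1
  have h0 : g (1, z0) = 0 := by
    rw [hgdef]
    show hz p (lv v 1, z0) = 0
    rw [lv_one]
    exact sub_eq_zero.2 hw0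
  have hs : ∀ z ∈ closedBall z0 ε1, z ≠ z0 → g (1, z) ≠ 0 := by
    intro z hz' hne
    rw [hgdef]
    show hz p (lv v 1, z) ≠ 0
    rw [lv_one]
    exact (hA z hz').2 hne
  have hM0 : ‖M (1, z0)‖ = 1 := by
    rw [hMdef]
    show ‖mu p (lv v 1, z0)‖ = 1
    rw [lv_one, hmu0, hm]
  -- near `t = 1`
  have eG : ∀ᶠ t in 𝓝 (1 : ℂ), ∀ z ∈ closedBall z0 ε1, (lv v t, z) ∈ (Gp p : Set (E d × ℂ)) := by
    refine IsCompact.eventually_forall_of_forall_eventually (isCompact_closedBall z0 ε1)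
      (P := fun t z => (lv v t, z) ∈ (Gp p : Set (E d × ℂ))) fun z hz' => ?_
    refine hlv2.continuousAt.eventually ((gp_open p).mem_nhds ?_)
    show (lv v 1, z) ∈ _
    rw [lv_one]
    exact (hA z hz').1
  have e0 : ∀ᶠ t in 𝓝 (1 : ℂ), t ≠ 0 := eventually_ne_nhds one_ne_zero
  have eb : ∀ᶠ t in 𝓝 (1 : ℂ), lv v t ∈ ball v ε := by
    have e : ContinuousAt (fun t : ℂ => lv v t) 1 := hlv.continuousAt
    refine e.eventually (isOpen_ball.mem_nhds ?_)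
    show lv v 1 ∈ ball v ε
    rw [lv_one]
    exact mem_ball_self hε
  have hball : ball z0 ε1 ⊆ closedBall z0 ε1 := ball_subset_closedBall
  have hN : ∀ᶠ t in 𝓝 (1 : ℂ), (ZS g z0 ε1 t).ncard ≤ d ^ p + 1 := by
    filter_upwards [eG, e0] with t ht ht0
    have hgen := gen_lv h ht0
    obtain ⟨hf, hcd⟩ := per_card hgen.cop (dg_of hgen) hd hp
    refine (Set.ncard_le_ncard ?_ hf).trans hcd
    rintro z ⟨hz1, hz2⟩
    rw [hgdef] at hz2
    exact fix_of (ht z (hball hz1)) hz2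
  have hT1 := mfin_s (d := d) h.ha.le (by rw [h.hb]; omega) (small_m hk hkd h hp) (m := 1) (by simp)
  have hne1 : ∀ᶠ t in 𝓝[≠] (1 : ℂ), t ∉ {t : ℂ | ∃ x : ℕ → ℂ, Cyc (C t * pol v.1) (pol v.2) p x 1} := by
    have e2 : ∀ᶠ t in 𝓝 (1 : ℂ), t ∉ {t : ℂ | ∃ x : ℕ → ℂ, Cyc (C t * pol v.1) (pol v.2) p x 1} \ {1} :=
      (hT1.subset sdiff_subset).isClosed.isOpen_compl.mem_nhds (by simp)
    filter_upwards [e2.filter_mono nhdsWithin_le_nhds, self_mem_nhdsWithin] with t ht ht1 ht2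
    exact ht ⟨ht2, ht1⟩
  have hzz : ∀ᶠ t in 𝓝[≠] (1 : ℂ), ∀ z ∈ ball z0 ε1, g (t, z) = 0 →
      fderiv ℂ g (t, z) (0, 1) ≠ 0 := by
    filter_upwards [eG.filter_mono nhdsWithin_le_nhds, hne1] with t ht ht1 z hz' hgz
    rw [hgdef, g_dz (ht z (hball hz'))]
    intro hmu
    apply ht1
    rw [hgdef] at hgz
    have hcy := cyc_of (ht z (hball hz')) hgz
    have hmu' : mu p (lv v t, z) = 1 := sub_eq_zero.1 hmu
    rw [hmu'] at hcy
    refine ⟨fun i => wi i (lv v t, z), ?_⟩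
    rw [← pol_smul]
    exact hcy
  by_contra hcon
  push Not at hcon
  have h1 : ∀ᶠ t in 𝓝[≠] (1 : ℂ), ∀ z ∈ ZS g z0 ε1 t, 1 ≤ ‖M (t, z)‖ := by
    filter_upwards [eG.filter_mono nhdsWithin_le_nhds, e0.filter_mono nhdsWithin_le_nhds,
      eb.filter_mono nhdsWithin_le_nhds] with t ht ht0 htb z hz'
    obtain ⟨hz1, hz2⟩ := hz'
    rw [hgdef] at hz2
    have hcy := cyc_of (ht z (hball hz1)) hz2
    rw [hMdef]
    refine hcon t ht0 htb _ _ hcy ?_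
    show ‖z - z0‖ < ε
    rw [← dist_eq_norm]
    exact (mem_ball.1 hz1).trans hε1'
  have hfinal := pr_max hε1 hg hM h0 hs hM0 hN hzz h1
  have hnull := lnull_s (d := d) h.ha.le (by rw [h.hb]; omega) (small_m hk hkd h hp)
  have hsub : ∀ᶠ t in 𝓝[≠] (1 : ℂ),
      t ∈ {t : ℂ | ∃ x m, Cyc (C t * pol v.1) (pol v.2) p x m ∧ ‖m‖ = 1} := by
    filter_upwards [eG.filter_mono nhdsWithin_le_nhds, hfinal] with t ht ht2
    obtain ⟨z, ⟨hz1, hz2⟩, hz3⟩ := ht2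
    rw [hgdef] at hz2
    have hcy := cyc_of (ht z (hball hz1)) hz2
    rw [hMdef] at hz3
    refine ⟨fun i => wi i (lv v t, z), mu p (lv v t, z), ?_, hz3⟩
    rw [← pol_smul]
    exact hcy
  have hmem : {t : ℂ | ∃ x m, Cyc (C t * pol v.1) (pol v.2) p x m ∧ ‖m‖ = 1} ∪ {1} ∈ 𝓝 (1 : ℂ) := by
    rw [Filter.Eventually, mem_nhdsWithin_iff_exists_mem_nhds_inter] at hsub
    obtain ⟨U, hU, hU2⟩ := hsub
    filter_upwards [hU] with t ht
    by_cases ht1 : t = 1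
    · right
      exact ht1
    · left
      exact hU2 ⟨ht, ht1⟩
  have hpos := MeasureTheory.Measure.measure_pos_of_mem_nhds MeasureTheory.volume hmem
  have hzero : MeasureTheory.volume
      ({t : ℂ | ∃ x m, Cyc (C t * pol v.1) (pol v.2) p x m ∧ ‖m‖ = 1} ∪ {1}) = 0 :=
    MeasureTheory.measure_union_null hnull (MeasureTheory.measure_singleton _)
  rw [hzero] at hpos
  exact lt_irrefl _ hpos

theorem ptbF (hd : 2 ≤ d) {k : ℕ} (hk : 2 ≤ k) (hkd : k ≤ d) {v : Em d k} (h : GenM d k (pol v.1) (pol v.2))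
    {p : ℕ} (hp : 0 < p) {x : ℕ → ℂ}
    {m : ℂ} (hc : Cyc (pol v.1) (pol v.2) p x m) (hm : ‖m‖ = 1) {ε : ℝ} (hε : 0 < ε) :
    ∃ w ∈ ball v ε, GenM d k (pol w.1) (pol w.2) ∧ ∃ (y : ℕ → ℂ) (m' : ℂ),
      Cyc (pol w.1) (pol w.2) p y m' ∧ ‖y 0 - x 0‖ < ε ∧ ‖m'‖ < 1 := by
  obtain ⟨u, hu⟩ : ∃ u, u = ex d k v := ⟨_, rfl⟩
  have h1 : pol u.1 = pol v.1 := by rw [hu]; exact (ex_pol v).1
  have h2 : pol u.2 = pol v.2 := by rw [hu]; exact (ex_pol v).2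
  rw [← h1, ← h2] at h hc
  obtain ⟨t, ht, htb, y, m', hy, hy1, hy2⟩ := ptf_e hd hk hkd h hp hc hm hε
  have h3 : ex d k (t • v.1, v.2) = lv u t := by
    rw [hu]
    rfl
  have h4 := gen_lv h ht
  rw [← h3, (ex_pol _).1, (ex_pol _).2] at h4 hy
  refine ⟨(t • v.1, v.2), ?_, h4, y, m', hy, hy1, hy2⟩
  have h5 : t • u.1 ∈ ball u.1 ε := by
    rw [mem_ball, dist_eq_norm] at htb ⊢
    exact lt_of_le_of_lt (norm_fst_le (lv u t - u)) htb
  rw [mem_ball, Prod.dist_eq, max_lt_iff]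
  refine ⟨?_, ?_⟩
  · rw [hu] at h5
    exact h5
  · simpa using hε

end Pool.Agent.H57.CF
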